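import Pool.Agent.H32.CH.Targets

/-! Module ADD of the board ch_modules: one more edge in a forest of paths. -/

set_option autoImplicit false
set_option linter.unusedSectionVars false

namespace Pool.Agent.H13.CH.ADD

open Finset Pool.Agent.H32.CH
open scoped Classical

variable {V : Type} [Fintype V]

/-- all neighbours of v are in X when dg F X v = dg F univ v -/
theorem closed_of_eq {F : SimpleGraph V} {X : Finset V} {v : V} (h : dg F univ v ≤ dg F X v) :
    ∀ y, F.Adj v y → y ∈ X := by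
  intro y hy
  have hs : nb F X v ⊆ nb F univ v := filter_subset_filter _ (subset_univ _)
  have he : nb F X v = nb F univ v := eq_of_subset_of_card_le hs h
  have h1 : y ∈ nb F univ v := mem_nb.2 ⟨mem_univ _, hy⟩
  rw [← he] at h1
  exact (mem_nb.1 h1).1

theorem eq_of_closed {F : SimpleGraph V} {X : Finset V} {v : V} (h : ∀ y, F.Adj v y → y ∈ X) :
    dg F X v = dg F univ v := by
  unfold dg
  congr 1
  ext y
  rw [mem_nb, mem_nb]
  exact ⟨fun h1 => ⟨mem_univ _, h1.2⟩, fun h1 => ⟨h y h1.2, h1.2⟩⟩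

theorem dg_other {F : SimpleGraph V} {X : Finset V} {c d v : V} (hc : v ≠ c) (hd : v ≠ d) :
    dg (F ⊔ SimpleGraph.edge c d) X v = dg F X v := by
  unfold dg
  congr 1
  ext y
  rw [mem_nb, mem_nb, SimpleGraph.sup_adj, SimpleGraph.edge_adj]
  constructor
  · rintro ⟨h1, h2 | ⟨⟨h2, -⟩ | ⟨h2, -⟩, -⟩⟩
    · exact ⟨h1, h2⟩
    · exact absurd h2 hc
    · exact absurd h2 hd
  · rintro ⟨h1, h2⟩
    exact ⟨h1, Or.inl h2⟩

theorem dg_end {F : SimpleGraph V} {X : Finset V} {c d : V} (hcd : c ≠ d) :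
    dg (F ⊔ SimpleGraph.edge c d) X c ≤ dg F X c + 1 ∧
      (d ∉ X → dg (F ⊔ SimpleGraph.edge c d) X c ≤ dg F X c) := by
  have hkey : ∀ y, y ∈ nb (F ⊔ SimpleGraph.edge c d) X c → y ∈ nb F X c ∨ (y = d ∧ y ∈ X) := by
    intro y hy
    rw [mem_nb, SimpleGraph.sup_adj, SimpleGraph.edge_adj] at hy
    obtain ⟨h1, h2 | ⟨⟨-, h2⟩ | ⟨h2, -⟩, -⟩⟩ := hy
    · exact Or.inl (mem_nb.2 ⟨h1, h2⟩)
    · exact Or.inr ⟨h2, h1⟩
    · exact absurd h2 hcd
  constructor
  · have hs : nb (F ⊔ SimpleGraph.edge c d) X c ⊆ insert d (nb F X c) := by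
      intro y hy
      rcases hkey y hy with h | h
      · exact mem_insert_of_mem h
      · rw [h.1]
        exact mem_insert_self _ _
    exact (card_le_card hs).trans (card_insert_le _ _)
  · intro hd
    refine card_le_card ?_
    intro y hy
    rcases hkey y hy with h | h
    · exact h
    · exact absurd (h.1 ▸ h.2) hd

theorem key {F : SimpleGraph V} {c d : V} (h2 : ∀ v, dg F univ v ≤ 2) (hp : Peel F) (hcd : c ≠ d)
    (hc : dg F univ c ≤ 1) (hd : dg F univ d ≤ 1) (hn : ¬ Peel (F ⊔ SimpleGraph.edge c d)) :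
    ∃ X : Finset V, c ∈ X ∧ d ∈ X ∧ (∀ v ∈ X, ∀ y, F.Adj v y → y ∈ X) ∧ dg F X c = 1 ∧
      dg F X d = 1 ∧ ∀ v ∈ X, v ≠ c → v ≠ d → dg F X v = 2 := by
  unfold Peel at hn
  push Not at hn
  obtain ⟨X, hX, hall⟩ := hn
  have hsymm : SimpleGraph.edge c d = SimpleGraph.edge d c := SimpleGraph.edge_comm c d
  have e1 := dg_end (F := F) (X := X) hcd
  have e2 := dg_end (F := F) (X := X) hcd.symm
  rw [← hsymm] at e2
  have hmc : dg F X c ≤ 1 := (dg_mono (subset_univ _) c).trans hc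
  have hmd : dg F X d ≤ 1 := (dg_mono (subset_univ _) d).trans hd
  obtain ⟨v, hv, hv1⟩ := hp X hX
  have hboth : c ∈ X ∧ d ∈ X := by
    by_cases hvc : v = c
    · subst hvc
      refine ⟨hv, ?_⟩
      by_contra hdX
      have := hall v hv
      have := e1.2 hdX
      omega
    · by_cases hvd : v = d
      · subst hvd
        refine ⟨?_, hv⟩
        by_contra hcX
        have := hall v hv
        have := e2.2 hcX
        omega
      · have h3 := hall v hv
        rw [dg_other hvc hvd] at h3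
        omega
  have hc1 : dg F X c = 1 := by
    have := hall c hboth.1
    have := e1.1
    omega
  have hd1 : dg F X d = 1 := by
    have := hall d hboth.2
    have := e2.1
    omega
  have ho : ∀ v ∈ X, v ≠ c → v ≠ d → dg F X v = 2 := by
    intro v hv hvc hvd
    have h3 := hall v hv
    rw [dg_other hvc hvd] at h3
    have h4 := dg_mono (G := F) (subset_univ X) v
    have h5 := h2 v
    omega
  refine ⟨X, hboth.1, hboth.2, ?_, hc1, hd1, ho⟩
  intro v hv
  apply closed_of_eq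
  by_cases hvc : v = c
  · subst hvc
    omega
  · by_cases hvd : v = d
    · subst hvd
      omega
    · rw [ho v hv hvc hvd]
      exact h2 v

theorem pf_ADD (h1 : T_HS) : T_ADD := by
  intro V _ F c d₁ d₂ h2 hp hc1 hc2 hdd hc hd1 hd2
  by_contra hcon
  rw [not_or] at hcon
  obtain ⟨X₁, a1, a2, a3, a4, a5, a6⟩ := key h2 hp hc1 hc hd1 hcon.1
  obtain ⟨X₂, b1, b2, b3, b4, b5, b6⟩ := key h2 hp hc2 hc hd2 hcon.2
  have hn1 : d₁ ∉ X₂ := by
    intro h
    have h3 := b6 d₁ h hc1.symm hdd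
    have h4 := dg_mono (G := F) (subset_univ X₂) d₁
    omega
  have hn2 : d₂ ∉ X₁ := by
    intro h
    have h3 := a6 d₂ h hc2.symm hdd.symm
    have h4 := dg_mono (G := F) (subset_univ X₁) d₂
    omega
  have hYc : ∀ v ∈ X₁ ∩ X₂, dg F (X₁ ∩ X₂) v = dg F univ v := by
    intro v hv
    rw [mem_inter] at hv
    exact eq_of_closed fun y hy => mem_inter.2 ⟨a3 v hv.1 y hy, b3 v hv.2 y hy⟩
  have hcY : c ∈ X₁ ∩ X₂ := mem_inter.2 ⟨a1, b1⟩
  have hcv : dg F (X₁ ∩ X₂) c = 1 := by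
    rw [hYc c hcY, ← eq_of_closed (a3 c a1), a4]
  have hov : ∀ v ∈ (X₁ ∩ X₂).erase c, dg F (X₁ ∩ X₂) v = 2 := by
    intro v hv
    rw [mem_erase] at hv
    have hv' := mem_inter.1 hv.2
    rw [hYc v hv.2, ← eq_of_closed (a3 v hv'.1)]
    refine a6 v hv'.1 hv.1 ?_
    rintro rfl
    exact hn1 hv'.2
  have hsum := h1 V F (X₁ ∩ X₂)
  rw [← add_sum_erase _ _ hcY, hcv, sum_congr rfl hov, sum_const, smul_eq_mul] at hsum
  obtain ⟨k, hk⟩ := hsum
  omega

end Pool.Agent.H13.CH.ADD
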